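import Pool.Agent.H143R3.MT.Stmts

set_option autoImplicit false

namespace Pool.Agent.H973R3.MT

open MeasureTheory ProbabilityTheory Filter Topology
open scoped ENNReal NNReal

open Pool.Agent.H143R3.MT

theorem pois (r : ℝ≥0) (θ : ℝ) : ∫⁻ n : ℕ, ENNReal.ofReal (Real.exp (θ * n)) ∂(poissonMeasure r) =
    ENNReal.ofReal (Real.exp (r * (Real.exp θ - 1))) := by
  rw [lintegral_countable']
  have h1 : ∀ n : ℕ, ENNReal.ofReal (Real.exp (θ * n)) * (poissonMeasure r) {n} =
      ENNReal.ofReal (Real.exp (-r) * ((r * Real.exp θ) ^ n / (n.factorial : ℝ))) := by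
    intro n
    rw [poissonMeasure_singleton, ← ENNReal.ofReal_mul (Real.exp_pos _).le]
    congr 1
    rw [mul_pow, ← Real.exp_nat_mul, mul_comm (n : ℝ) θ]
    ring
  have hs : HasSum (fun n : ℕ => Real.exp (-r) * ((r * Real.exp θ) ^ n / (n.factorial : ℝ)))
      (Real.exp (-r) * Real.exp (r * Real.exp θ)) := by
    apply HasSum.mul_left
    rw [Real.exp_eq_exp_ℝ]
    exact NormedSpace.expSeries_div_hasSum_exp (r * NormedSpace.exp θ)
  rw [tsum_congr h1, ← ENNReal.ofReal_tsum_of_nonneg (fun n => by positivity) hs.summable,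
    hs.tsum_eq, ← Real.exp_add]
  congr 2
  ring

theorem taskA5 : TaskA5 := by
  intro s θ
  have h1 : ∑' k : ℤ, sk s k * ENNReal.ofReal (Real.exp (θ * k)) =
      ∫⁻ k : ℤ, ENNReal.ofReal (Real.exp (θ * k)) ∂(skellam s) := by
    rw [lintegral_countable']
    apply tsum_congr
    intro k
    rw [mul_comm]
    rfl
  rw [h1]
  unfold skellam
  rw [lintegral_map (measurable_of_countable _) (measurable_of_countable _),
    lintegral_prod _ (measurable_of_countable _).aemeasurable]
  have h2 : ∀ a b : ℕ, ENNReal.ofReal (Real.exp (θ * (((a : ℤ) - (b : ℤ) : ℤ) : ℝ))) =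
      ENNReal.ofReal (Real.exp (θ * a)) * ENNReal.ofReal (Real.exp (-θ * b)) := by
    intro a b
    rw [← ENNReal.ofReal_mul (Real.exp_pos _).le, ← Real.exp_add]
    congr 2
    push_cast
    ring
  simp only [h2]
  have h3 : ∀ a : ℕ, ∫⁻ b : ℕ, ENNReal.ofReal (Real.exp (θ * a)) * ENNReal.ofReal (Real.exp (-θ * b))
      ∂(poissonMeasure (s / 2)) = ENNReal.ofReal (Real.exp (θ * a)) *
        ENNReal.ofReal (Real.exp ((s / 2 : ℝ≥0) * (Real.exp (-θ) - 1))) := by
    intro a
    rw [lintegral_const_mul _ (measurable_of_countable _), pois]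
  simp only [h3]
  rw [lintegral_mul_const _ (measurable_of_countable _), pois,
    ← ENNReal.ofReal_mul (Real.exp_pos _).le, ← Real.exp_add]
  congr 2
  rw [Real.cosh_eq]
  push_cast
  ring

end Pool.Agent.H973R3.MT
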